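import Pool.Agent.Y152.RP.Stm

/-!
RP-CYC (job 6023): the smooth divisors of the homogenized values of the cyclotomic polynomials.
-/

set_option autoImplicit false

namespace Pool.Agent.Y239.RP.Cyc

open Polynomial
open Pool.Agent.Y152.RP
open Pool.Agent.Y152.BD (Nv Nv_map Nv_rat)

theorem nv_mul (P Q : ℤ[X]) (hP : P ≠ 0) (hQ : Q ≠ 0) (a : ℚ) : Nv (P * Q) a = Nv P a * Nv Q a := by
  have h : ((Nv (P * Q) a : ℤ) : ℚ) = ((Nv P a * Nv Q a : ℤ) : ℚ) := by
    push_cast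
    rw [Nv_rat, Nv_rat, Nv_rat, natDegree_mul hP hQ, map_mul, pow_add]
    ring
  exact_mod_cast h

/-- the polynomial `1 + X ^ d + ... + X ^ (d (p - 1))` -/
noncomputable def geo (d p : ℕ) : ℤ[X] := ∑ i ∈ Finset.range p, (X ^ d) ^ i

theorem geo_mul (d p : ℕ) : geo d p * (X ^ d - 1) = X ^ (d * p) - 1 := by
  rw [geo, geom_sum_mul, ← pow_mul]

theorem natDegree_X_pow_sub_one (d : ℕ) : (X ^ d - 1 : ℤ[X]).natDegree = d := by
  have := natDegree_X_pow_sub_C (R := ℤ) (n := d) (r := 1)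
  simpa using this

theorem geo_ne_zero (d p : ℕ) (hd : 0 < d) (hp : 0 < p) : geo d p ≠ 0 := by
  intro h
  have h1 := geo_mul d p
  rw [h, zero_mul] at h1
  have h2 := congrArg natDegree h1
  rw [natDegree_X_pow_sub_one, natDegree_zero] at h2
  have := Nat.mul_pos hd hp
  omega

theorem natDegree_geo (d p : ℕ) (hd : 0 < d) (hp : 0 < p) : (geo d p).natDegree = d * (p - 1) := by
  have h1 := congrArg natDegree (geo_mul d p)
  have h2 : (X ^ d - 1 : ℤ[X]) ≠ 0 := by
    intro h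
    have := congrArg natDegree h
    rw [natDegree_X_pow_sub_one, natDegree_zero] at this
    omega
  rw [natDegree_mul (geo_ne_zero d p hd hp) h2, natDegree_X_pow_sub_one,
    natDegree_X_pow_sub_one] at h1
  obtain ⟨k, rfl⟩ := Nat.exists_eq_succ_of_ne_zero hp.ne'
  rw [Nat.succ_sub_one]
  rw [Nat.mul_succ] at h1
  omega

theorem nv_geo (d p : ℕ) (hd : 0 < d) (hp : 0 < p) (a : ℚ) :
    Nv (geo d p) a = ∑ i ∈ Finset.range p, (a.num ^ d) ^ i * ((a.den : ℤ) ^ d) ^ (p - 1 - i) := by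
  have h : ((Nv (geo d p) a : ℤ) : ℚ) =
      ((∑ i ∈ Finset.range p, (a.num ^ d) ^ i * ((a.den : ℤ) ^ d) ^ (p - 1 - i) : ℤ) : ℚ) := by
    rw [Nv_rat, natDegree_geo d p hd hp, geo, map_sum, Finset.mul_sum]
    push_cast
    refine Finset.sum_congr rfl fun i hi => ?_
    rw [Finset.mem_range] at hi
    rw [map_pow, map_pow, aeval_X]
    have h1 : (a.den : ℚ) ^ (d * (p - 1)) = ((a.den : ℚ) ^ d) ^ i * ((a.den : ℚ) ^ d) ^ (p - 1 - i) := by
      rw [← pow_add, ← pow_mul]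
      congr 2
      omega
    have h2 : ((a.num : ℤ) : ℚ) = a * (a.den : ℚ) := (Rat.mul_den_eq_num a).symm
    rw [h1, h2, mul_pow, mul_pow]
    ring
  exact_mod_cast h

theorem cyc_dvd_geo (d p : ℕ) (hd : 0 < d) (hp : 1 < p) : cyclotomic (d * p) ℤ ∣ geo d p := by
  have hmem : d ∈ (d * p).properDivisors := by
    rw [Nat.mem_properDivisors]
    exact ⟨Dvd.intro _ rfl, by nlinarith⟩
  have h1 := X_pow_sub_one_mul_cyclotomic_dvd_X_pow_sub_one_of_dvd ℤ hmem
  rw [← geo_mul, mul_comm (geo d p)] at h1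
  have h2 : (X ^ d - 1 : ℤ[X]) ≠ 0 := by
    intro h
    have := congrArg natDegree h
    rw [natDegree_X_pow_sub_one, natDegree_zero] at this
    omega
  exact (mul_dvd_mul_iff_left h2).1 h1

/-- the denominator is prime to the divisors of the value -/
theorem not_dvd_den {n p : ℕ} (hn : 0 < n) (hp : p.Prime) (a : ℚ)
    (h : (p : ℤ) ∣ Nv (cyclotomic n ℤ) a) : ¬ p ∣ a.den := by
  intro hd
  have := Fact.mk hp
  have h0 : ((a.den : ℕ) : ZMod p) = 0 := (ZMod.natCast_eq_zero_iff _ _).2 hd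
  have h1 : ((Nv (cyclotomic n ℤ) a : ℤ) : ZMod p) = ((a.num : ℤ) : ZMod p) ^ (cyclotomic n ℤ).natDegree := by
    rw [Nv]
    push_cast
    rw [Finset.sum_eq_single_of_mem (cyclotomic n ℤ).natDegree
      (Finset.mem_range.2 (Nat.lt_succ_self _))]
    · have h2 : (cyclotomic n ℤ).coeff (cyclotomic n ℤ).natDegree = 1 := (cyclotomic.monic n ℤ).coeff_natDegree
      rw [h2, Nat.sub_self, pow_zero, mul_one, Int.cast_one, one_mul]
    · intro b hb hne
      rw [Finset.mem_range] at hb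
      rw [h0, zero_pow (by omega), mul_zero]
  have h2 : ((Nv (cyclotomic n ℤ) a : ℤ) : ZMod p) = 0 := (ZMod.intCast_zmod_eq_zero_iff_dvd _ p).2 h
  rw [h2] at h1
  have h3 : ((a.num : ℤ) : ZMod p) = 0 := by
    have h5 : (cyclotomic n ℤ).natDegree ≠ 0 := by
      rw [natDegree_cyclotomic]
      exact (Nat.totient_pos.2 hn).ne'
    exact (pow_eq_zero_iff h5).1 h1.symm
  have h4 : (p : ℤ) ∣ a.num := (ZMod.intCast_zmod_eq_zero_iff_dvd _ p).1 h3
  have h5 : p ∣ a.num.natAbs := Int.natCast_dvd.1 h4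
  have h6 := Nat.dvd_gcd h5 hd
  rw [a.reduced.gcd_eq_one] at h6
  exact hp.one_lt.ne' (Nat.dvd_one.1 h6)

/-- the quotient modulo `p` -/
theorem exists_quot {n p : ℕ} (hn : 0 < n) (hp : p.Prime) (a : ℚ)
    (h : (p : ℤ) ∣ Nv (cyclotomic n ℤ) a) : ∃ c : ZMod p, ((a.den : ℕ) : ZMod p) * c = ((a.num : ℤ) : ZMod p) ∧
      IsRoot (cyclotomic n (ZMod p)) c := by
  have := Fact.mk hp
  have h0 : ((a.den : ℕ) : ZMod p) ≠ 0 := by
    rw [Ne, ZMod.natCast_eq_zero_iff]
    exact not_dvd_den hn hp a h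
  have hc : ((a.den : ℕ) : ZMod p) * (((a.num : ℤ) : ZMod p) / ((a.den : ℕ) : ZMod p)) =
    ((a.num : ℤ) : ZMod p) := by field_simp
  refine ⟨_, hc, ?_⟩
  have h1 := Nv_map (cyclotomic n ℤ) a _ hc
  have h2 : ((Nv (cyclotomic n ℤ) a : ℤ) : ZMod p) = 0 := (ZMod.intCast_zmod_eq_zero_iff_dvd _ p).2 h
  rw [h2] at h1
  have h3 := (mul_eq_zero.1 h1.symm).resolve_left (pow_ne_zero _ h0)
  rw [IsRoot.def, ← map_cyclotomic_int, eval_map, ← algebraMap_int_eq, ← aeval_def]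
  exact h3

/-- a prime divisor of the value smaller than `n` divides `n` -/
theorem dvd_n {n p : ℕ} (hn : 0 < n) (hp : p.Prime) (hpn : p < n) (a : ℚ)
    (h : (p : ℤ) ∣ Nv (cyclotomic n ℤ) a) : p ∣ n := by
  by_contra hno
  have := Fact.mk hp
  obtain ⟨c, hc, hroot⟩ := exists_quot hn hp a h
  have : NeZero ((n : ℕ) : ZMod p) := ⟨by rwa [Ne, ZMod.natCast_eq_zero_iff]⟩
  have h1 := isRoot_cyclotomic_iff.1 hroot
  have h0 : c ≠ 0 := h1.ne_zero hn.ne'
  have h2 : n ∣ p - 1 := by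
    rw [h1.eq_orderOf]
    exact orderOf_dvd_of_pow_eq_one (ZMod.pow_card_sub_one_eq_one h0)
  have h3 := Nat.le_of_dvd (by have := hp.two_le; omega) h2
  omega

theorem z2 : ∀ z : ZMod 2, z ≠ 0 → z = 1 := by decide

/-- the square of a prime divisor of `n` does not divide the value -/
theorem sq_not_dvd {n p : ℕ} (hn : 2 < n) (hp : p.Prime) (hpn : p ∣ n) (a : ℚ) :
    ¬ (p : ℤ) ^ 2 ∣ Nv (cyclotomic n ℤ) a := by
  intro hd
  have := Fact.mk hp
  have hd1 : (p : ℤ) ∣ Nv (cyclotomic n ℤ) a := (dvd_pow_self _ (by norm_num)).trans hd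
  obtain ⟨c, hc, hroot⟩ := exists_quot (by omega) hp a hd1
  have hden := not_dvd_den (by omega) hp a hd1
  obtain ⟨e, m, hpm, hnem⟩ := Nat.exists_eq_pow_mul_and_not_dvd (n := n) (by omega) p hp.ne_one
  have he : e ≠ 0 := by
    rintro rfl
    rw [pow_zero, one_mul] at hnem
    exact hpm (hnem ▸ hpn)
  obtain ⟨e', rfl⟩ := Nat.exists_eq_succ_of_ne_zero he
  have hm : m ≠ 0 := by
    rintro rfl
    exact hpm (dvd_zero p)
  have : NeZero ((m : ℕ) : ZMod p) := ⟨by rwa [Ne, ZMod.natCast_eq_zero_iff]⟩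
  rw [hnem] at hroot
  have hprim : IsPrimitiveRoot c m := isRoot_cyclotomic_prime_pow_mul_iff_of_charP.1 hroot
  have hc0 : c ≠ 0 := hprim.ne_zero hm
  set d := p ^ e' * m with hdd
  have hnd : n = d * p := by rw [hnem, hdd, Nat.succ_eq_add_one, pow_succ]; ring
  have hdpos : 0 < d := Nat.mul_pos (pow_pos hp.pos _) (Nat.pos_of_ne_zero hm)
  have hdvd := cyc_dvd_geo d p hdpos hp.one_lt
  rw [← hnd] at hdvd
  obtain ⟨Q, hQ⟩ := hdvd
  have hg0 := geo_ne_zero d p hdpos hp.pos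
  have hQ0 : Q ≠ 0 := by
    rintro rfl
    rw [mul_zero] at hQ
    exact hg0 hQ
  have h1 := nv_mul (cyclotomic n ℤ) Q (cyclotomic_ne_zero n ℤ) hQ0 a
  rw [← hQ, nv_geo d p hdpos hp.pos] at h1
  have hSd : (p : ℤ) ^ 2 ∣ ∑ i ∈ Finset.range p, (a.num ^ d) ^ i * ((a.den : ℤ) ^ d) ^ (p - 1 - i) := by
    rw [h1]
    exact hd.mul_right _
  have hnum0 : ((a.num : ℤ) : ZMod p) ≠ 0 := by
    rw [← hc]
    refine mul_ne_zero ?_ hc0
    rw [Ne, ZMod.natCast_eq_zero_iff]
    exact hden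
  have hXY : (p : ℤ) ∣ a.num ^ d - (a.den : ℤ) ^ d := by
    rw [← ZMod.intCast_zmod_eq_zero_iff_dvd]
    push_cast
    have : c ^ d = 1 := by
      rw [hdd, mul_comm, pow_mul, hprim.pow_eq_one, one_pow]
    rw [← hc, mul_pow, this, mul_one, sub_self]
  have hX : ¬ (p : ℤ) ∣ a.num ^ d := by
    intro h
    have h2 := (Nat.prime_iff_prime_int.1 hp).dvd_of_dvd_pow h
    exact hnum0 ((ZMod.intCast_zmod_eq_zero_iff_dvd _ p).2 h2)
  rcases hp.eq_two_or_odd' with rfl | hodd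
  · -- p = 2
    have hc1 : c = 1 := z2 c hc0
    have hm1 : m = 1 := by
      have h2 := hprim.eq_orderOf
      rw [hc1, orderOf_one] at h2
      exact h2
    have he' : e' ≠ 0 := by
      rintro rfl
      rw [hm1] at hnem
      norm_num at hnem
      omega
    have heven : Even d := by
      rw [hdd]
      exact (Nat.even_pow.2 ⟨even_two, he'⟩).mul_right _
    obtain ⟨j, hj⟩ := heven
    rw [Finset.sum_range_succ, Finset.sum_range_one] at hSd
    simp only [pow_zero, one_mul, pow_one, Nat.sub_self, mul_one] at hSd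
    have ho1 : Odd (a.num) := by
      rw [← Int.not_even_iff_odd, even_iff_two_dvd]
      intro h
      exact hX (dvd_pow (by exact_mod_cast h) hdpos.ne')
    have ho2 : Odd ((a.den : ℤ)) := by
      rw [← Int.not_even_iff_odd, even_iff_two_dvd]
      intro h
      exact hden (by exact_mod_cast h)
    have sq1 : ∀ z : ℤ, Odd z → z ^ d % 4 = 1 := by
      intro z hz
      have hz2 : Odd (z ^ j) := hz.pow
      obtain ⟨w, hw⟩ := hz2
      rw [hj, pow_add, hw]
      have : (2 * w + 1) * (2 * w + 1) = 4 * (w ^ 2 + w) + 1 := by ring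
      rw [this]
      omega
    have e1 := sq1 _ ho1
    have e2 := sq1 _ ho2
    have e3 : (4 : ℤ) ∣ (a.den : ℤ) ^ d + a.num ^ d := by
      have : ((2 : ℕ) : ℤ) ^ 2 = 4 := by norm_num
      rw [this, show (2 - 1 - 0 : ℕ) = 1 from rfl, pow_one] at hSd
      exact hSd
    omega
  · have h2 := emultiplicity_geom_sum₂_eq_one (R := ℤ) (p := p) (Nat.prime_iff_prime_int.1 hp) hodd
      hXY hX
    have h3 := le_emultiplicity_of_pow_dvd hSd
    rw [h2] at h3
    exact absurd h3 (by decide)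

/-- RP-CYC -/
theorem cyc : CycStm := by
  intro D n a ha hn hDn k hk hkD
  have hk0 : k ≠ 0 := by
    rintro rfl
    obtain ⟨p, hp1, hp2⟩ := Nat.exists_infinite_primes (D + 1)
    exact hkD p hp2 (by omega) (dvd_zero _)
  have hle : ∀ p : ℕ, p.Prime → p ∣ k.natAbs → p ≤ D := by
    intro p hp hpk
    by_contra hlt
    exact hkD p hp (by omega) (Int.natCast_dvd.2 hpk)
  have hsq : Squarefree k.natAbs := by
    rw [Nat.squarefree_iff_prime_squarefree]
    intro p hp hpp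
    have hpk : p ∣ k.natAbs := (Dvd.intro _ rfl).trans hpp
    have hpD := hle p hp hpk
    have hpV : (p : ℤ) ∣ Nv (cyclotomic n ℤ) a := (Int.natCast_dvd.2 hpk).trans hk
    have hpn := dvd_n (by omega) hp (by omega) a hpV
    apply sq_not_dvd hn hp hpn a
    refine dvd_trans ?_ hk
    have : (p : ℤ) ^ 2 = ((p * p : ℕ) : ℤ) := by push_cast; ring
    rw [this]
    exact Int.natCast_dvd.2 hpp
  have h1 := Nat.prod_primeFactors_of_squarefree hsq
  have h2 : ∏ p ∈ k.natAbs.primeFactors, p ∣ D.factorial := by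
    apply Finset.prod_primes_dvd
    · intro p hp
      exact (Nat.prime_of_mem_primeFactors hp).prime
    · intro p hp
      have hpp := Nat.prime_of_mem_primeFactors hp
      exact (hpp.dvd_factorial).2 (hle p hpp (Nat.dvd_of_mem_primeFactors hp))
  rw [h1] at h2
  exact Nat.le_of_dvd (Nat.factorial_pos D) h2

end Pool.Agent.Y239.RP.Cyc
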