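import Pool.Agent.Y152.RP.Stm

/-!
RP-SE (job 6016): the values of minimal polynomials under scaling and powers.
-/

set_option autoImplicit false

namespace Pool.Agent.Y239.RP.SE

open Polynomial
open Pool.Agent.Y152.RP
open Pool.Agent.Y152.BD (Nv)

/-- an irreducible factor that vanishes at `s` -/
theorem exists_factor (s : ℂ) (H : ℤ[X]) (h0 : H ≠ 0) (hs : aeval s H = 0) :
    ∃ G : ℤ[X], Irreducible G ∧ G ∣ H ∧ aeval s G = 0 := by
  induction H using WfDvdMonoid.induction_on_irreducible with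
  | zero => exact absurd rfl h0
  | unit u hu =>
    exfalso
    have h1 := hu.map (aeval s)
    rw [hs] at h1
    exact not_isUnit_zero h1
  | mul a i ha hi ih =>
    rw [map_mul, mul_eq_zero] at hs
    rcases hs with hs | hs
    · exact ⟨i, hi, Dvd.intro _ rfl, hs⟩
    · obtain ⟨G, h1, h2, h3⟩ := ih ha hs
      exact ⟨G, h1, h2.trans (Dvd.intro_left _ rfl), h3⟩

/-- RP-SCALE -/
theorem scale : ScaleStm := by
  intro D t a ha G hG ht hD
  set m := G.natDegree with hm
  set u : ℤ := a.num with hu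
  set v : ℤ := (a.den : ℤ) with hv
  set H : ℤ[X] := ∑ i ∈ Finset.range (m + 1), C (G.coeff i * u ^ i * v ^ (m - i)) * X ^ i with hH
  have hu0 : u ≠ 0 := Rat.num_ne_zero.2 ha
  have hcoef : H.coeff m = G.coeff m * u ^ m := by
    rw [hH, finsetSum_coeff]
    simp only [coeff_C_mul, coeff_X_pow]
    rw [Finset.sum_eq_single_of_mem m (Finset.mem_range.2 (Nat.lt_succ_self m))]
    · simp
    · intro b _ hb
      simp [hb.symm]
  have hH0 : H ≠ 0 := by
    intro h
    rw [h, coeff_zero] at hcoef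
    have : G.coeff m ≠ 0 := by
      rw [hm]
      exact leadingCoeff_ne_zero.2 hG.ne_zero
    exact mul_ne_zero this (pow_ne_zero _ hu0) hcoef.symm
  have hac : (a : ℂ) ≠ 0 := by exact_mod_cast ha
  have hvC : (v : ℂ) ≠ 0 := by
    rw [hv]
    exact_mod_cast a.den_nz
  have hauv : (a : ℂ) * (v : ℂ) = (u : ℂ) := by
    have := Rat.mul_den_eq_num a
    rw [hu, hv]
    exact_mod_cast this
  have hs1 : (u : ℂ) * (t / (a : ℂ)) = (v : ℂ) * t := by
    rw [← hauv]
    field_simp
  have hHs : aeval (t / (a : ℂ)) H = 0 := by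
    have h1 : aeval (t / (a : ℂ)) H = (v : ℂ) ^ m * aeval t G := by
      rw [hH, map_sum, aeval_eq_sum_range, Finset.mul_sum]
      refine Finset.sum_congr rfl fun i hi => ?_
      rw [Finset.mem_range] at hi
      rw [map_mul, map_pow, aeval_X, aeval_C, algebraMap_int_eq, eq_intCast, zsmul_eq_mul]
      have h2 : (v : ℂ) ^ m = (v : ℂ) ^ i * (v : ℂ) ^ (m - i) := by
        rw [← pow_add]
        congr 1
        omega
      have h3 : (u : ℂ) ^ i * (t / (a : ℂ)) ^ i = (v : ℂ) ^ i * t ^ i := by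
        rw [← mul_pow, hs1, mul_pow]
      rw [h2]
      push_cast
      calc (G.coeff i : ℂ) * (u : ℂ) ^ i * (v : ℂ) ^ (m - i) * (t / (a : ℂ)) ^ i
          = (G.coeff i : ℂ) * (v : ℂ) ^ (m - i) * ((u : ℂ) ^ i * (t / (a : ℂ)) ^ i) := by ring
        _ = _ := by rw [h3]; ring
    rw [h1, ht, mul_zero]
  have hH1 : H.eval 1 = Nv G a := by
    rw [hH, eval_finsetSum, Nv]
    refine Finset.sum_congr rfl fun i hi => ?_
    simp [hu, hv, hm]
  obtain ⟨G', h1, h2, h3⟩ := exists_factor _ H hH0 hHs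
  refine ⟨G', h1, h3, fun p hp hDp hd => hD p hp hDp ?_⟩
  rw [← hH1]
  exact hd.trans (eval_dvd h2)

theorem natDegree_ne_zero_of_irr {s : ℂ} {G : ℤ[X]} (hG : Irreducible G) (hs : aeval s G = 0) :
    G.natDegree ≠ 0 := by
  intro h
  rw [natDegree_eq_zero] at h
  obtain ⟨c, rfl⟩ := h
  rw [aeval_C] at hs
  have : c = 0 := by
    have h1 : ((c : ℤ) : ℂ) = 0 := by simpa using hs
    exact_mod_cast h1
  rw [this, map_zero] at hG
  exact hG.ne_zero rfl

theorem natDegree_eq_dg {s : ℂ} {G : ℤ[X]} (hG : Irreducible G) (hs : aeval s G = 0) :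
    G.natDegree = dg s := by
  have hp := hG.isPrimitive (natDegree_ne_zero_of_irr hG hs)
  have hi : Irreducible (G.map (Int.castRingHom ℚ)) :=
    (IsPrimitive.Int.irreducible_iff_irreducible_map_cast hp).1 hG
  have hs' : aeval s (G.map (Int.castRingHom ℚ)) = 0 := by
    have := aeval_map_algebraMap (A := ℚ) s G
    rw [algebraMap_int_eq] at this
    rw [this, hs]
  have halg : IsAlgebraic ℚ s := ⟨_, hi.ne_zero, hs'⟩
  have hint : IsIntegral ℚ s := halg.isIntegral
  have hd : minpoly ℚ s ∣ G.map (Int.castRingHom ℚ) := minpoly.dvd ℚ s hs'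
  have has : Associated (minpoly ℚ s) (G.map (Int.castRingHom ℚ)) :=
    (minpoly.irreducible hint).associated_of_dvd hi hd
  have h1 : (minpoly ℚ s).natDegree = (G.map (Int.castRingHom ℚ)).natDegree :=
    natDegree_eq_of_degree_eq (degree_eq_degree_of_associated has)
  rw [natDegree_map_eq_of_injective Int.cast_injective] at h1
  rw [dg, IntermediateField.adjoin.finrank hint, h1]

theorem dg_div (t : ℂ) (a : ℚ) (ha : a ≠ 0) : dg (t / (a : ℂ)) = dg t := by
  have hac : (a : ℂ) ≠ 0 := by exact_mod_cast ha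
  have h : IntermediateField.adjoin ℚ {t / (a : ℂ)} = IntermediateField.adjoin ℚ {t} := by
    apply le_antisymm
    · rw [IntermediateField.adjoin_simple_le_iff]
      exact div_mem (IntermediateField.mem_adjoin_simple_self ℚ t)
        ((IntermediateField.adjoin ℚ {t}).algebraMap_mem a)
    · rw [IntermediateField.adjoin_simple_le_iff]
      have h1 : t = (t / (a : ℂ)) * (a : ℂ) := by field_simp
      have h2 := mul_mem (IntermediateField.mem_adjoin_simple_self ℚ (t / (a : ℂ)))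
        ((IntermediateField.adjoin ℚ {t / (a : ℂ)}).algebraMap_mem a)
      rw [show (algebraMap ℚ ℂ a) = (a : ℂ) from rfl, ← h1] at h2
      exact h2
  rw [dg, dg, h]

theorem isPrimitive_expand {f : ℕ} (hf : 0 < f) {G : ℤ[X]} (hG : G.IsPrimitive) :
    (expand ℤ f G).IsPrimitive := by
  intro r hr
  apply hG r
  rw [C_dvd_iff_dvd_coeff] at hr ⊢
  intro i
  have := hr (i * f)
  rwa [coeff_expand_mul hf] at this

/-- RP-EXP -/
theorem expo : ExpStm := by
  intro D t a f hf ha halg hdg ⟨G, hG, hGs, hGD⟩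
  have hac : (a : ℂ) ≠ 0 := by exact_mod_cast ha
  have haQ : IsAlgebraic ℚ (a : ℂ) := isAlgebraic_algebraMap (A := ℂ) a
  have hsalg : IsAlgebraic ℚ (t / (a : ℂ)) := by
    rw [div_eq_mul_inv]
    exact halg.mul haQ.inv
  have hsf : IsAlgebraic ℚ ((t / (a : ℂ)) ^ f) := hsalg.pow f
  have hsfZ : IsAlgebraic ℤ ((t / (a : ℂ)) ^ f) := by
    rwa [← IsFractionRing.isAlgebraic_iff ℤ ℚ ℂ] at hsf
  obtain ⟨P, hP0, hP⟩ := hsfZ
  obtain ⟨G2, hG2, -, hG2s⟩ := exists_factor _ P hP0 hP
  have hdeg : G.natDegree = f * G2.natDegree := by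
    have e : (t / (a : ℂ)) ^ f = t ^ f / ((a ^ f : ℚ) : ℂ) := by
      rw [div_pow]
      push_cast
      rfl
    rw [natDegree_eq_dg hG hGs, natDegree_eq_dg hG2 hG2s, dg_div t a ha, e,
      dg_div (t ^ f) (a ^ f) (pow_ne_zero _ ha), hdg]
  have hpG := hG.isPrimitive (natDegree_ne_zero_of_irr hG hGs)
  have hpE := isPrimitive_expand hf (hG2.isPrimitive (natDegree_ne_zero_of_irr hG2 hG2s))
  have hEs : aeval (t / (a : ℂ)) (expand ℤ f G2) = 0 := by
    rw [expand_aeval, hG2s]
  -- G divides the expansion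
  have hdvd : G ∣ expand ℤ f G2 := by
    rw [IsPrimitive.Int.dvd_iff_map_cast_dvd_map_cast G _ hpG]
    have hi : Irreducible (G.map (Int.castRingHom ℚ)) :=
      (IsPrimitive.Int.irreducible_iff_irreducible_map_cast hpG).1 hG
    have e1 : aeval (t / (a : ℂ)) (G.map (Int.castRingHom ℚ)) = 0 := by
      have := aeval_map_algebraMap (A := ℚ) (t / (a : ℂ)) G
      rw [algebraMap_int_eq] at this
      rw [this, hGs]
    have e2 : aeval (t / (a : ℂ)) ((expand ℤ f G2).map (Int.castRingHom ℚ)) = 0 := by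
      have := aeval_map_algebraMap (A := ℚ) (t / (a : ℂ)) (expand ℤ f G2)
      rw [algebraMap_int_eq] at this
      rw [this, hEs]
    have hint : IsIntegral ℚ (t / (a : ℂ)) := hsalg.isIntegral
    have has : Associated (minpoly ℚ (t / (a : ℂ))) (G.map (Int.castRingHom ℚ)) :=
      (minpoly.irreducible hint).associated_of_dvd hi (minpoly.dvd ℚ _ e1)
    exact has.dvd_iff_dvd_left.1 (minpoly.dvd ℚ _ e2)
  obtain ⟨Q, hQ⟩ := hdvd
  have hE0 : expand ℤ f G2 ≠ 0 := hpE.ne_zero
  have hQ0 : Q ≠ 0 := by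
    rintro rfl
    rw [mul_zero] at hQ
    exact hE0 hQ
  have hQd : Q.natDegree = 0 := by
    have h1 := congrArg natDegree hQ
    rw [natDegree_expand, natDegree_mul hG.ne_zero hQ0, hdeg, mul_comm] at h1
    omega
  rw [natDegree_eq_zero] at hQd
  obtain ⟨c, rfl⟩ := hQd
  have hc : IsUnit c := hpE c (Dvd.intro_left _ hQ.symm)
  have h1 : G2.eval 1 = G.eval 1 * c := by
    have := congrArg (eval 1) hQ
    rw [expand_eval, one_pow, eval_mul, eval_C] at this
    exact this
  refine ⟨G2, hG2, by rw [← div_pow]; exact hG2s, fun p hp hDp hd => hGD p hp hDp ?_⟩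
  rw [h1] at hd
  exact hc.dvd_mul_right.1 hd

end Pool.Agent.Y239.RP.SE
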