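import Pool.Agent.Y152.RP.Stm

/-!
RP-TOT (job 6022): `K √n ≤ φ(n)` for large `n`.
-/

set_option autoImplicit false

namespace Pool.Agent.Y239.RP.Tot

open Finset Filter Topology

lemma prod_low (S : Finset ℕ) (hS : ∀ p ∈ S, 2 ≤ p) :
    (1 : ℚ) / (S.card + 1) ≤ ∏ p ∈ S, (1 - (p : ℚ)⁻¹) := by
  induction S using Finset.induction_on_max with
  | empty => simp
  | insert a s hmax ih =>
    have ha : a ∉ s := fun h => (hmax a h).false
    rw [prod_insert ha, card_insert_of_notMem ha]
    have h1 := ih fun p hp => hS p (mem_insert_of_mem hp)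
    have h2 : 2 ≤ a := hS a (mem_insert_self _ _)
    have h3 : s.card ≤ a - 2 := by
      have : s ⊆ Ico 2 a := by
        intro p hp
        rw [mem_Ico]
        exact ⟨hS p (mem_insert_of_mem hp), hmax p hp⟩
      have := card_le_card this
      rwa [Nat.card_Ico] at this
    have h4 : (s.card : ℚ) + 2 ≤ a := by
      exact_mod_cast (by omega : s.card + 2 ≤ a)
    have hc : (0 : ℚ) ≤ s.card := Nat.cast_nonneg _
    have h5 : (a : ℚ)⁻¹ ≤ 1 / (s.card + 2) := by
      rw [← one_div]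
      exact one_div_le_one_div_of_le (by linarith) h4
    have h6 : ((s.card : ℚ) + 1) / (s.card + 2) ≤ 1 - (a : ℚ)⁻¹ := by
      have : ((s.card : ℚ) + 1) / (s.card + 2) = 1 - 1 / (s.card + 2) := by
        field_simp
        ring
      rw [this]
      linarith
    calc (1 : ℚ) / ((s.card + 1 : ℕ) + 1) = ((s.card : ℚ) + 1) / (s.card + 2) * (1 / (s.card + 1)) := by
          push_cast
          field_simp
          ring
      _ ≤ (1 - (a : ℚ)⁻¹) * ∏ p ∈ s, (1 - (p : ℚ)⁻¹) := by
          apply mul_le_mul h6 h1 (by positivity)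
          refine le_trans (by positivity) h6

lemma phi_low (q : ℕ) (hq : 1 ≤ q) : (q : ℝ) ≤ (1 + 2 * Real.log q) * Nat.totient q := by
  have h1 := prod_low q.primeFactors (fun p hp => (Nat.prime_of_mem_primeFactors hp).two_le)
  have h2 := Nat.totient_eq_mul_prod_factors q
  have h3 : (q : ℚ) ≤ (q.primeFactors.card + 1) * Nat.totient q := by
    rw [h2]
    rw [div_le_iff₀ (by positivity)] at h1
    have h0 : (0 : ℚ) ≤ q := Nat.cast_nonneg _
    nlinarith
  have h4 : (q : ℝ) ≤ (q.primeFactors.card + 1) * Nat.totient q := by exact_mod_cast h3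
  have h5 : (q.primeFactors.card : ℝ) ≤ 2 * Real.log q := by
    have h8 : 2 ^ q.primeFactors.card ≤ q := by
      calc 2 ^ q.primeFactors.card = ∏ p ∈ q.primeFactors, 2 := by rw [prod_const]
        _ ≤ ∏ p ∈ q.primeFactors, p := prod_le_prod' fun p hp => (Nat.prime_of_mem_primeFactors hp).two_le
        _ ≤ q := Nat.le_of_dvd (by omega) (Nat.prod_primeFactors_dvd q)
    have q1 : (2 : ℝ) ^ q.primeFactors.card ≤ q := by exact_mod_cast h8
    have q2 := Real.log_le_log (by positivity) q1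
    rw [Real.log_pow] at q2
    have q3 : (1 : ℝ) / 2 ≤ Real.log 2 := by linarith [Real.log_two_gt_d9]
    nlinarith [(Nat.cast_nonneg q.primeFactors.card : (0 : ℝ) ≤ (q.primeFactors.card : ℝ))]
  refine h4.trans ?_
  apply mul_le_mul_of_nonneg_right _ (Nat.cast_nonneg _)
  linarith

/-- `K (1 + 2 log n) ≤ √n` for large `n`. -/
lemma ev (K : ℕ) : ∀ᶠ n : ℕ in atTop, (K : ℝ) * (1 + 2 * Real.log n) ≤ Real.sqrt n := by
  have h1 : (fun x : ℝ => (K : ℝ) * (1 + 2 * Real.log x)) =o[atTop] fun x : ℝ => x ^ (1 / 2 : ℝ) := by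
    have hc : (fun _ : ℝ => (1 : ℝ)) =o[atTop] fun x : ℝ => x ^ (1 / 2 : ℝ) := by
      rw [Asymptotics.isLittleO_one_left_iff]
      have := tendsto_rpow_atTop (y := (1 / 2 : ℝ)) (by norm_num)
      exact tendsto_norm_atTop_atTop.comp this
    have hl : (fun x : ℝ => 2 * Real.log x) =o[atTop] fun x : ℝ => x ^ (1 / 2 : ℝ) :=
      (isLittleO_log_rpow_atTop (by norm_num : (0 : ℝ) < 1 / 2)).const_mul_left 2
    exact (hc.add hl).const_mul_left _
  have h2 := h1.bound (c := 1) one_pos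
  have h3 := tendsto_natCast_atTop_atTop.eventually (f := fun n : ℕ => (n : ℝ)) h2
  filter_upwards [h3] with n hn
  rw [one_mul, ← Real.sqrt_eq_rpow, Real.norm_of_nonneg (Real.sqrt_nonneg _)] at hn
  exact (Real.le_norm_self _).trans hn

/-- RP-TOT -/
theorem tot : Pool.Agent.Y152.RP.TotStm := by
  intro K
  obtain ⟨N, hN⟩ := eventually_atTop.1 (ev K)
  refine ⟨max N 1, fun n hn => ?_⟩
  have h1 := hN n (le_trans (le_max_left _ _) hn)
  have hn1 : 1 ≤ n := le_trans (le_max_right _ _) hn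
  have h2 := phi_low n hn1
  have hlog : 0 ≤ Real.log n := Real.log_natCast_nonneg n
  have hpos : (0 : ℝ) < 1 + 2 * Real.log n := by linarith
  have hsq : Real.sqrt n * Real.sqrt n = n := Real.mul_self_sqrt (Nat.cast_nonneg n)
  have h3 : (K : ℝ) * Real.sqrt n * (1 + 2 * Real.log n) ≤ (Nat.totient n : ℝ) * (1 + 2 * Real.log n) := by
    calc (K : ℝ) * Real.sqrt n * (1 + 2 * Real.log n)
        = ((K : ℝ) * (1 + 2 * Real.log n)) * Real.sqrt n := by ring
      _ ≤ Real.sqrt n * Real.sqrt n := mul_le_mul_of_nonneg_right h1 (Real.sqrt_nonneg _)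
      _ = n := hsq
      _ ≤ _ := by rw [mul_comm]; exact h2
  exact le_of_mul_le_mul_right h3 hpos

end Pool.Agent.Y239.RP.Tot
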